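import Pool.Agent.helper29.JZ.Spec

/-! # jz:RE3 -/

set_option autoImplicit false

open Finset Polynomial Module

namespace Pool.Agent.helper22.JZ

noncomputable section

open Pool.Agent.helper29.JZ

variable {h h' : ℕ}

private lemma uA {M : Finset (Fin h × Fin h')} {z z' : Fin h × Fin h'} (hz : z ∈ PA M) (hz' : z' ∈ M)
    (he : z.1 = z'.1) : z = z' := by
  unfold PA at hz
  obtain ⟨h1, h2⟩ := Finset.mem_filter.1 hz
  unfold col at h2
  obtain ⟨w, hw⟩ := Finset.card_eq_one.1 h2
  have h3 : z ∈ M.filter (fun v => v.1 = z.1) := Finset.mem_filter.2 ⟨h1, rfl⟩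
  have h4 : z' ∈ M.filter (fun v => v.1 = z.1) := Finset.mem_filter.2 ⟨hz', he.symm⟩
  rw [hw, Finset.mem_singleton] at h3 h4
  rw [h3, h4]

private lemma uB {M : Finset (Fin h × Fin h')} {z z' : Fin h × Fin h'} (hz : z ∈ PB M) (hz' : z' ∈ M)
    (he : z.2 = z'.2) : z = z' := by
  unfold PB at hz
  obtain ⟨h1, h2⟩ := Finset.mem_filter.1 hz
  unfold row at h2
  obtain ⟨w, hw⟩ := Finset.card_eq_one.1 h2
  have h3 : z ∈ M.filter (fun v => v.2 = z.2) := Finset.mem_filter.2 ⟨h1, rfl⟩
  have h4 : z' ∈ M.filter (fun v => v.2 = z.2) := Finset.mem_filter.2 ⟨hz', he.symm⟩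
  rw [hw, Finset.mem_singleton] at h3 h4
  rw [h3, h4]

private lemma mPA {M : Finset (Fin h × Fin h')} {z : Fin h × Fin h'} (hz : z ∈ PA M) : z ∈ M :=
  (Finset.mem_filter.1 hz).1

private lemma mPB {M : Finset (Fin h × Fin h')} {z : Fin h × Fin h'} (hz : z ∈ PB M) : z ∈ M :=
  (Finset.mem_filter.1 hz).1

/-- the embedding of the codes -/
private def emb (p : ℤ × ℤ) : ℂ := (p.1 : ℂ) + (p.2 : ℂ) * Complex.I

private lemma emb_inj {p q : ℤ × ℤ} (he : emb p = emb q) : p = q := by
  unfold emb at he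
  have h1 := congrArg Complex.re he
  have h2 := congrArg Complex.im he
  simp at h1 h2
  exact Prod.ext h1 h2

open Classical in
private def cA (M T1 T3 : Finset (Fin h × Fin h')) (z : Fin h × Fin h') : ℤ × ℤ :=
  if z ∈ T1 then (4 * ((z.2 : ℕ) : ℤ) + 4, 0)
  else if z ∈ T3 then (0, ((z.1 : ℕ) : ℤ) + 1)
  else if z ∈ PB M then (4 * ((z.1 : ℕ) : ℤ) + 5, 0)
  else (4 * ((z.1 : ℕ) : ℤ) + 6, 0)

open Classical in
private def cB (M T2 T3 : Finset (Fin h × Fin h')) (z : Fin h × Fin h') : ℤ × ℤ :=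
  if z ∈ T2 then (-(4 * ((z.1 : ℕ) : ℤ) + 4), 0)
  else if z ∈ T3 then (0, ((z.1 : ℕ) : ℤ) + 1)
  else if z ∈ PA M then (-(4 * ((z.2 : ℕ) : ℤ) + 5), 0)
  else (-(4 * ((z.2 : ℕ) : ℤ) + 6), 0)

open Classical in
private def xA (M T1 T3 : Finset (Fin h × Fin h')) (k : Fin h) : ℤ × ℤ :=
  if hk : ∃ m, (k, m) ∈ PA M then cA M T1 T3 (k, hk.choose)
  else (-(4 * ((k : ℕ) : ℤ) + 4), 0)

open Classical in
private def yB (M T2 T3 : Finset (Fin h × Fin h')) (m : Fin h') : ℤ × ℤ :=
  if hm : ∃ k, (k, m) ∈ PB M then cB M T2 T3 (hm.choose, m)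
  else (4 * ((m : ℕ) : ℤ) + 4, 0)

private lemma xA_of (M T1 T3 : Finset (Fin h × Fin h')) {z : Fin h × Fin h'} (hz : z ∈ PA M) :
    xA M T1 T3 z.1 = cA M T1 T3 z := by
  unfold xA
  have hk : ∃ m, (z.1, m) ∈ PA M := ⟨z.2, hz⟩
  rw [dif_pos hk]
  congr 1
  exact (uA hz (mPA hk.choose_spec) rfl).symm

private lemma xA_none (M T1 T3 : Finset (Fin h × Fin h')) {k : Fin h} (hk : ¬ ∃ m, (k, m) ∈ PA M) :
    xA M T1 T3 k = (-(4 * ((k : ℕ) : ℤ) + 4), 0) := by
  unfold xA
  rw [dif_neg hk]

private lemma yB_of (M T2 T3 : Finset (Fin h × Fin h')) {z : Fin h × Fin h'} (hz : z ∈ PB M) :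
    yB M T2 T3 z.2 = cB M T2 T3 z := by
  unfold yB
  have hk : ∃ k, (k, z.2) ∈ PB M := ⟨z.1, hz⟩
  rw [dif_pos hk]
  congr 1
  exact (uB hz (mPB hk.choose_spec) rfl).symm

private lemma yB_none (M T2 T3 : Finset (Fin h × Fin h')) {m : Fin h'} (hm : ¬ ∃ k, (k, m) ∈ PB M) :
    yB M T2 T3 m = (4 * ((m : ℕ) : ℤ) + 4, 0) := by
  unfold yB
  rw [dif_neg hm]

private lemma xA_inj (M T1 T3 : Finset (Fin h × Fin h'))
    (hT1 : ∀ z ∈ T1, ∀ z' ∈ T1, z.2 = z'.2 → z = z') : Function.Injective (xA M T1 T3) := by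
  classical
  intro k k' he
  by_cases hk : ∃ m, (k, m) ∈ PA M
  · obtain ⟨m, hm⟩ := hk
    have e1 := xA_of M T1 T3 hm
    by_cases hk' : ∃ m, (k', m) ∈ PA M
    · obtain ⟨m', hm'⟩ := hk'
      have e2 := xA_of M T1 T3 hm'
      simp only at e1 e2
      rw [e1, e2] at he
      unfold cA at he
      simp only at he
      by_cases a1 : (k, m) ∈ T1
      · by_cases b1 : (k', m') ∈ T1
        · rw [if_pos a1, if_pos b1, Prod.mk.injEq] at he
          have h2 : m = m' := Fin.ext (by omega)
          exact congrArg Prod.fst (hT1 _ a1 _ b1 h2)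
        · rw [if_pos a1, if_neg b1] at he
          split_ifs at he <;> rw [Prod.mk.injEq] at he <;> omega
      · by_cases b1 : (k', m') ∈ T1
        · rw [if_neg a1, if_pos b1] at he
          split_ifs at he <;> rw [Prod.mk.injEq] at he <;> omega
        · rw [if_neg a1, if_neg b1] at he
          apply Fin.ext
          split_ifs at he <;> rw [Prod.mk.injEq] at he <;> omega
    · have e2 := xA_none M T1 T3 hk'
      simp only at e1
      rw [e1, e2] at he
      unfold cA at he
      simp only at he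
      split_ifs at he <;> rw [Prod.mk.injEq] at he <;> omega
  · have e1 := xA_none M T1 T3 hk
    by_cases hk' : ∃ m, (k', m) ∈ PA M
    · obtain ⟨m', hm'⟩ := hk'
      have e2 := xA_of M T1 T3 hm'
      simp only at e2
      rw [e1, e2] at he
      unfold cA at he
      simp only at he
      split_ifs at he <;> rw [Prod.mk.injEq] at he <;> omega
    · have e2 := xA_none M T1 T3 hk'
      rw [e1, e2, Prod.mk.injEq] at he
      exact Fin.ext (by omega)

private lemma yB_inj (M T2 T3 : Finset (Fin h × Fin h'))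
    (hT2 : ∀ z ∈ T2, ∀ z' ∈ T2, z.1 = z'.1 → z = z') (hT3 : T3 ⊆ PA M) :
    Function.Injective (yB M T2 T3) := by
  classical
  intro m m' he
  by_cases hk : ∃ k, (k, m) ∈ PB M
  · obtain ⟨k, hm⟩ := hk
    have e1 := yB_of M T2 T3 hm
    by_cases hk' : ∃ k, (k, m') ∈ PB M
    · obtain ⟨k', hm'⟩ := hk'
      have e2 := yB_of M T2 T3 hm'
      simp only at e1 e2
      rw [e1, e2] at he
      unfold cB at he
      simp only at he
      by_cases a1 : (k, m) ∈ T2
      · by_cases b1 : (k', m') ∈ T2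
        · rw [if_pos a1, if_pos b1, Prod.mk.injEq] at he
          have h2 : k = k' := Fin.ext (by omega)
          exact congrArg Prod.snd (hT2 _ a1 _ b1 h2)
        · rw [if_pos a1, if_neg b1] at he
          split_ifs at he <;> rw [Prod.mk.injEq] at he <;> omega
      · by_cases b1 : (k', m') ∈ T2
        · rw [if_neg a1, if_pos b1] at he
          split_ifs at he <;> rw [Prod.mk.injEq] at he <;> omega
        · rw [if_neg a1, if_neg b1] at he
          by_cases a3 : (k, m) ∈ T3
          · by_cases b3 : (k', m') ∈ T3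
            · rw [if_pos a3, if_pos b3, Prod.mk.injEq] at he
              have h2 : k = k' := Fin.ext (by omega)
              exact congrArg Prod.snd (uA (hT3 a3) (mPA (hT3 b3)) h2)
            · rw [if_pos a3, if_neg b3] at he
              split_ifs at he <;> rw [Prod.mk.injEq] at he <;> omega
          · by_cases b3 : (k', m') ∈ T3
            · rw [if_neg a3, if_pos b3] at he
              split_ifs at he <;> rw [Prod.mk.injEq] at he <;> omega
            · rw [if_neg a3, if_neg b3] at he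
              apply Fin.ext
              split_ifs at he <;> rw [Prod.mk.injEq] at he <;> omega
    · have e2 := yB_none M T2 T3 hk'
      simp only at e1
      rw [e1, e2] at he
      unfold cB at he
      simp only at he
      split_ifs at he <;> rw [Prod.mk.injEq] at he <;> omega
  · have e1 := yB_none M T2 T3 hk
    by_cases hk' : ∃ k, (k, m') ∈ PB M
    · obtain ⟨k', hm'⟩ := hk'
      have e2 := yB_of M T2 T3 hm'
      simp only at e2
      rw [e1, e2] at he
      unfold cB at he
      simp only at he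
      split_ifs at he <;> rw [Prod.mk.injEq] at he <;> omega
    · have e2 := yB_none M T2 T3 hk'
      rw [e1, e2, Prod.mk.injEq] at he
      exact Fin.ext (by omega)

theorem jz_RE3 : RE3_stmt := by
  classical
  intro hSEL _ hTRB h h' M a b p α β hA hB hp ha hb hα1 hα2 hβ1 hβ2
  obtain ⟨hT1', _⟩ := hSEL h h' (PA M \ PB M) ((PA M \ PB M).card - α)
  obtain ⟨_, hT2'⟩ := hSEL h h' (PB M \ PA M) ((PB M \ PA M).card - β)
  have hsA : sA M ≤ ((PA M \ PB M).image Prod.snd).card := by
    unfold sA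
    refine Finset.card_le_card ?_
    intro m hm
    obtain ⟨_, h1, z, hz, hzm⟩ := Finset.mem_filter.1 hm
    refine Finset.mem_image.2 ⟨z, Finset.mem_sdiff.2 ⟨hz, fun hzB => ?_⟩, hzm⟩
    have h2 := (Finset.mem_filter.1 hzB).2
    rw [hzm] at h2
    omega
  have hsB : sB M ≤ ((PB M \ PA M).image Prod.fst).card := by
    unfold sB
    refine Finset.card_le_card ?_
    intro k hk
    obtain ⟨_, h1, z, hz, hzk⟩ := Finset.mem_filter.1 hk
    refine Finset.mem_image.2 ⟨z, Finset.mem_sdiff.2 ⟨hz, fun hzA => ?_⟩, hzk⟩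
    have h2 := (Finset.mem_filter.1 hzA).2
    rw [hzk] at h2
    omega
  obtain ⟨T1, hT1s, hT1c, hT1⟩ := hT1' (by omega)
  obtain ⟨T2, hT2s, hT2c, hT2⟩ := hT2' (by omega)
  obtain ⟨T3, hT3s, hT3c⟩ := Finset.exists_subset_card_eq (s := PA M ∩ PB M)
    (n := (PA M ∩ PB M).card - p) (by omega)
  have hT3A : T3 ⊆ PA M := hT3s.trans Finset.inter_subset_left
  have hT3B : T3 ⊆ PB M := hT3s.trans Finset.inter_subset_right
  have hT1A : ∀ z ∈ T1, z ∈ PA M ∧ z ∉ PB M := fun z hz => Finset.mem_sdiff.1 (hT1s hz)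
  have hT2B : ∀ z ∈ T2, z ∈ PB M ∧ z ∉ PA M := fun z hz => Finset.mem_sdiff.1 (hT2s hz)
  have hd13 : Disjoint T1 T3 := by
    rw [Finset.disjoint_left]
    intro z h1 h3
    exact (hT1A z h1).2 (hT3B h3)
  have hd23 : Disjoint T2 T3 := by
    rw [Finset.disjoint_left]
    intro z h2 h3
    exact (hT2B z h2).2 (hT3A h3)
  -- the points of PA on the diagonal
  have hdA : ∀ z ∈ PA M, (yB M T2 T3 z.2 = xA M T1 T3 z.1 ↔ z ∈ T1 ∪ T3) := by
    intro z hz
    rw [xA_of M T1 T3 hz, Finset.mem_union]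
    by_cases hzB : z ∈ PB M
    · rw [yB_of M T2 T3 hzB]
      have h2 : z ∉ T2 := fun h2 => (hT2B z h2).2 hz
      have h1 : z ∉ T1 := fun h1 => (hT1A z h1).2 hzB
      unfold cA cB
      rw [if_neg h2, if_neg h1]
      by_cases h3 : z ∈ T3
      · rw [if_pos h3, if_pos h3]
        exact ⟨fun _ => Or.inr h3, fun _ => rfl⟩
      · rw [if_neg h3, if_neg h3, if_pos hzB, if_pos hz, Prod.mk.injEq]
        constructor
        · intro h4
          omega
        · intro h4
          rcases h4 with h4 | h4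
          · exact absurd h4 h1
          · exact absurd h4 h3
    · have hno : ¬ ∃ k, (k, z.2) ∈ PB M := by
        rintro ⟨k, hk⟩
        have h5 := uB hk (mPA hz) rfl
        rw [h5] at hk
        exact hzB hk
      rw [yB_none M T2 T3 hno]
      have h3 : z ∉ T3 := fun h3 => hzB (hT3B h3)
      unfold cA
      by_cases h1 : z ∈ T1
      · rw [if_pos h1]
        exact ⟨fun _ => Or.inl h1, fun _ => rfl⟩
      · rw [if_neg h1, if_neg h3, if_neg hzB, Prod.mk.injEq]
        constructor
        · intro h4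
          omega
        · intro h4
          rcases h4 with h4 | h4
          · exact absurd h4 h1
          · exact absurd h4 h3
  have hdB : ∀ z ∈ PB M, (xA M T1 T3 z.1 = yB M T2 T3 z.2 ↔ z ∈ T2 ∪ T3) := by
    intro z hz
    rw [yB_of M T2 T3 hz, Finset.mem_union]
    by_cases hzA : z ∈ PA M
    · rw [xA_of M T1 T3 hzA]
      have h1 : z ∉ T1 := fun h1 => (hT1A z h1).2 hz
      have h2 : z ∉ T2 := fun h2 => (hT2B z h2).2 hzA
      unfold cA cB
      rw [if_neg h1, if_neg h2]
      by_cases h3 : z ∈ T3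
      · rw [if_pos h3, if_pos h3]
        exact ⟨fun _ => Or.inr h3, fun _ => rfl⟩
      · rw [if_neg h3, if_neg h3, if_pos hz, if_pos hzA, Prod.mk.injEq]
        constructor
        · intro h4
          omega
        · intro h4
          rcases h4 with h4 | h4
          · exact absurd h4 h2
          · exact absurd h4 h3
    · have hno : ¬ ∃ m, (z.1, m) ∈ PA M := by
        rintro ⟨m, hm⟩
        have h5 := uA hm (mPB hz) rfl
        rw [h5] at hm
        exact hzA hm
      rw [xA_none M T1 T3 hno]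
      have h3 : z ∉ T3 := fun h3 => hzA (hT3A h3)
      unfold cB
      by_cases h2 : z ∈ T2
      · rw [if_pos h2]
        exact ⟨fun _ => Or.inl h2, fun _ => rfl⟩
      · rw [if_neg h2, if_neg h3, if_neg hzA, Prod.mk.injEq]
        constructor
        · intro h4
          omega
        · intro h4
          rcases h4 with h4 | h4
          · exact absurd h4 h2
          · exact absurd h4 h3
  refine ⟨fun k => emb (xA M T1 T3 k), fun m => emb (yB M T2 T3 m),
    fun k k' hk => xA_inj M T1 T3 hT1 (emb_inj hk), fun m m' hm => yB_inj M T2 T3 hT2 hT3A (emb_inj hm), ?_, ?_⟩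
  · refine ⟨isCoprime_one_left, ?_, hA⟩
    have h1 : HC (fun k => emb (xA M T1 T3 k)) (fun m => emb (yB M T2 T3 m)) M 1 X = T1 ∪ T3 := by
      ext z
      unfold HC
      simp only [Finset.mem_filter, eval_one, eval_X, one_mul]
      constructor
      · rintro ⟨h2, h3⟩
        exact (hdA z h2).1 (emb_inj h3)
      · intro h2
        have h3 : z ∈ PA M := by
          rcases Finset.mem_union.1 h2 with h4 | h4
          · exact (hT1A z h4).1
          · exact hT3A h4
        exact ⟨h3, congrArg emb ((hdA z h3).2 h2)⟩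
    rw [h1, Finset.card_union_of_disjoint hd13, natDegree_one, natDegree_X, hT1c, hT3c]
    have h2 := Finset.card_sdiff_add_card_inter (PA M) (PB M)
    omega
  · have hT := hTRB ‹_› h h' M
    obtain ⟨hT1, _, _, _, _, _, _, hT8⟩ := hT
    refine ⟨isCoprime_one_left, ?_, by rw [hT1]; exact hB⟩
    rw [hT8, hT1]
    have h1 : HB (fun k => emb (xA M T1 T3 k)) (fun m => emb (yB M T2 T3 m)) M 1 X = T2 ∪ T3 := by
      ext z
      unfold HB
      simp only [Finset.mem_filter, eval_one, eval_X, one_mul]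
      constructor
      · rintro ⟨h2, h3⟩
        exact (hdB z h2).1 (emb_inj h3)
      · intro h2
        have h3 : z ∈ PB M := by
          rcases Finset.mem_union.1 h2 with h4 | h4
          · exact (hT2B z h4).1
          · exact hT3B h4
        exact ⟨h3, congrArg emb ((hdB z h3).2 h2)⟩
    rw [h1, Finset.card_union_of_disjoint hd23, natDegree_one, natDegree_X, hT2c, hT3c]
    have h2 := Finset.card_sdiff_add_card_inter (PB M) (PA M)
    rw [Finset.inter_comm] at h2
    omega

end

end Pool.Agent.helper22.JZ
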